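import Mathlib

/-!
# MP_8f8c07_co, Q1: such a morphism exists

With `a = false`, `b = true`, the morphism is `h(a) = aaaab`, `h(b) = aabababab`.

* It is abelian `10`-power free.  This is Dekking's method: with `γ(a) = 1`, `γ(b) = 7` in
  `ZMod 11` one has `γ(h(a)) = γ(h(b)) = 0`, the residues of prefixes of images avoid `5`, and
  the residue of a cut point determines how to shift it to a block boundary.
* Its fixed point is `5`-power free (same residues, plus a finite check for periods `≤ 8`) and
  contains no factor `bb`.
-/

namespace Pool.Agent.Results.MP_8f8c07_co.Morphism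

/-! ### Definitions for an arbitrary morphism on `{a, b}` -/

/-- The image of the word `w` under the morphism with images `m a`, `m b`. -/
def app (m : Bool → List Bool) (w : List Bool) : List Bool := w.flatMap m

/-- `u` is an abelian `k`-power: `u = w_1 ... w_k` with nonempty `w_i` that are permutations
of each other. -/
def IsAbelianPower (k : ℕ) (u : List Bool) : Prop :=
  ∃ ws : List (List Bool), ws.length = k ∧ ws.flatten = u ∧ (∀ v ∈ ws, v ≠ []) ∧
    ∀ v ∈ ws, ∀ v' ∈ ws, v.Perm v'

/-- No factor of `w` is an abelian `k`-power. -/
def AbelianPowerFree (k : ℕ) (w : List Bool) : Prop := ∀ u, u <:+: w → ¬ IsAbelianPower k u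

/-- The morphism `m` is abelian `k`-power free. -/
def IsAbelianPowerFreeMorphism (k : ℕ) (m : Bool → List Bool) : Prop :=
  ∀ w, AbelianPowerFree k w → AbelianPowerFree k (app m w)

/-- The word `h^n(a)`. -/
def iter (m : Bool → List Bool) (n : ℕ) : List Bool := (app m)^[n] [false]

/-- The infinite word `ω` is the fixed point `h^ω(a)`: `h(a) = a u` with `u` nonempty, the
lengths of the `h^n(a)` tend to infinity, and all `h^n(a)` are prefixes of `ω`. -/
def IsFixedPoint (m : Bool → List Bool) (ω : ℕ → Bool) : Prop :=
  (∃ u, u ≠ [] ∧ m false = false :: u) ∧
    Filter.Tendsto (fun n => (iter m n).length) Filter.atTop Filter.atTop ∧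
    ∀ n i, ∀ hi : i < (iter m n).length, (iter m n)[i] = ω i

/-- `u` is a factor of the infinite word `ω`. -/
def IsFactor (ω : ℕ → Bool) (u : List Bool) : Prop :=
  ∃ i, ∀ t, ∀ ht : t < u.length, u[t] = ω (i + t)

/-! ### The morphism -/

/-- `h(a) = aaaab`, `h(b) = aabababab`. -/
def h : Bool → List Bool
  | false => [false, false, false, false, true]
  | true => [false, false, true, false, true, false, true, false, true]

/-- The weight of a letter. -/
def wt (c : Bool) : ZMod 11 := if c then 7 else 1

/-- The weight of a word. -/
def gam (w : List Bool) : ZMod 11 := (w.map wt).sum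

theorem gam_append (u v : List Bool) : gam (u ++ v) = gam u + gam v := by simp [gam]

theorem gam_nil : gam [] = 0 := rfl

theorem gam_h : ∀ c, gam (h c) = 0 := by decide

theorem app_nil (m : Bool → List Bool) : app m [] = [] := rfl

theorem app_cons (m : Bool → List Bool) (c : Bool) (w : List Bool) :
    app m (c :: w) = m c ++ app m w := by simp [app]

theorem app_append (m : Bool → List Bool) (u v : List Bool) :
    app m (u ++ v) = app m u ++ app m v := by simp [app]

theorem gam_app (w : List Bool) : gam (app h w) = 0 := by
  induction w with
  | nil => rfl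
  | cons c w ih => rw [app_cons, gam_append, gam_h, ih, add_zero]

/-- Words to be removed on the left of a cut point. -/
def T (g : ZMod 11) : List Bool :=
  if g = 1 then [false] else if g = 2 then [false, false] else
  if g = 9 then [false, false, true] else if g = 10 then [false, false, true, false] else
  if g = 6 then [false, false, true, false, true] else
  if g = 7 then [false, false, true, false, true, false] else []

/-- Words to be added on the right of a cut point. -/
def U (g : ZMod 11) : List Bool :=
  if g = 3 then [false, true] else if g = 4 then [true] else []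

theorem T_or_U : ∀ g : ZMod 11, T g = [] ∨ U g = [] := by decide

theorem local_anchor : ∀ c : Bool, ∀ r < 9, r < (h c).length →
    (((h c).take r ++ U (gam ((h c).take r)) = T (gam ((h c).take r)) ∨
      (h c).take r ++ U (gam ((h c).take r)) = h c ++ T (gam ((h c).take r))) ∧
    gam ((h c).take r) ≠ 5 ∧ gam ((h c).take r) ≠ 8) := by
  decide +kernel

theorem len_h : ∀ c, (h c).length ≤ 9 := by decide

theorem len_h' : ∀ c, 5 ≤ (h c).length := by decide

/-- Every cut point of `h(w)` can be shifted to a block boundary in a way which depends only on
its residue. -/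
theorem anchor (w : List Bool) : ∀ n, n ≤ (app h w).length →
    ∃ Q, Q <+: w ∧ (app h w).take n ++ U (gam ((app h w).take n)) =
      app h Q ++ T (gam ((app h w).take n)) ∧
      gam ((app h w).take n) ≠ 5 ∧ gam ((app h w).take n) ≠ 8 := by
  induction w with
  | nil =>
    intro n hn
    refine ⟨[], List.prefix_rfl, ?_, ?_, ?_⟩
    · simp [app]; decide
    · simp [app]; decide
    · simp [app]; decide
  | cons c w ih =>
    intro n hn
    rw [app_cons] at hn ⊢
    rcases Nat.lt_or_ge n (h c).length with hlt | hge
    · rw [List.take_append_of_le_length hlt.le]
      obtain ⟨h1, h2, h3⟩ := local_anchor c n (lt_of_lt_of_le hlt (len_h c)) hlt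
      rcases h1 with h1 | h1
      · exact ⟨[], List.nil_prefix, by rw [app_nil]; simpa using h1, h2, h3⟩
      · refine ⟨[c], ⟨w, rfl⟩, ?_, h2, h3⟩
        rw [h1, app_cons, app_nil, List.append_nil]
    · obtain ⟨n', rfl⟩ := Nat.exists_eq_add_of_le hge
      rw [List.length_append] at hn
      obtain ⟨Q, hQ, h1, h2, h3⟩ := ih n' (by omega)
      rw [List.take_length_add_append]
      rw [gam_append, gam_h, zero_add]
      refine ⟨c :: Q, ?_, ?_, h2, h3⟩
      · obtain ⟨R, rfl⟩ := hQ
        exact ⟨R, rfl⟩
      · rw [List.append_assoc, h1, app_cons, List.append_assoc]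

/-! ### Counting -/

theorem count_false_add_true (w : List Bool) : w.count false + w.count true = w.length := by
  induction w with
  | nil => rfl
  | cons c w ih => cases c <;> simp <;> omega

theorem gam_eq (w : List Bool) : gam w = (w.length : ZMod 11) + 6 * (w.count true : ZMod 11) := by
  induction w with
  | nil => simp [gam]
  | cons c w ih =>
    have : gam (c :: w) = wt c + gam w := by simp [gam]
    rw [this, ih]
    cases c
    · simp [wt]; ring
    · simp [wt]; ring

theorem length_app (w : List Bool) :
    (app h w).length = 5 * w.count false + 9 * w.count true := by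
  induction w with
  | nil => rfl
  | cons c w ih =>
    rw [app_cons, List.length_append, ih]
    cases c <;> simp [h] <;> ring

theorem count_app (w : List Bool) :
    (app h w).count true = w.count false + 4 * w.count true := by
  induction w with
  | nil => rfl
  | cons c w ih =>
    rw [app_cons, List.count_append, ih]
    cases c <;> simp [h] <;> ring

/-! ### Abelian powers and prefix counts -/

theorem block_count (L B : ℕ) (ws : List (List Bool)) (hL : ∀ v ∈ ws, v.length = L)
    (hB : ∀ v ∈ ws, v.count true = B) (j : ℕ) (hj : j ≤ ws.length) :
    (ws.take j).flatten.length = j * L ∧ (ws.take j).flatten.count true = j * B := by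
  induction j with
  | zero => simp
  | succ j ih =>
    obtain ⟨h1, h2⟩ := ih (by omega)
    have hmem : ws[j] ∈ ws := List.getElem_mem _
    rw [List.take_succ_eq_append_getElem (by omega), List.flatten_append, List.length_append,
      List.count_append, h1, h2]
    simp only [List.flatten_cons, List.flatten_nil, List.append_nil]
    rw [hL _ hmem, hB _ hmem]
    constructor <;> ring

theorem of_index (w : List Bool) (k s L B c0 : ℕ) (hL : 0 < L)
    (hle : s + k * L ≤ w.length)
    (hc : ∀ j ≤ k, (w.take (s + j * L)).count true = c0 + j * B) : ¬ AbelianPowerFree k w := by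
  intro hfree
  set ws : List (List Bool) := (List.range k).map (fun j => (w.drop (s + j * L)).take L) with hws
  have hflat : ∀ k', ((List.range k').map (fun j => (w.drop (s + j * L)).take L)).flatten =
      (w.drop s).take (k' * L) := by
    intro k'
    induction k' with
    | zero => simp
    | succ k' ih =>
      rw [List.range_succ, List.map_append, List.flatten_append, ih]
      simp only [List.map_cons, List.map_nil, List.flatten_cons, List.flatten_nil,
        List.append_nil]
      rw [Nat.succ_mul, List.take_add, List.drop_drop]
  have hlen : ∀ v ∈ ws, v.length = L := by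
    intro v hv
    rw [hws, List.mem_map] at hv
    obtain ⟨j, hj, rfl⟩ := hv
    rw [List.mem_range] at hj
    rw [List.length_take, List.length_drop]
    have : (j + 1) * L ≤ k * L := Nat.mul_le_mul_right _ hj
    have e : (j + 1) * L = j * L + L := by ring
    omega
  have hcnt : ∀ v ∈ ws, v.count true = B := by
    intro v hv
    rw [hws, List.mem_map] at hv
    obtain ⟨j, hj, rfl⟩ := hv
    rw [List.mem_range] at hj
    have e1 := hc j hj.le
    have e2 := hc (j + 1) hj
    have e3 : s + (j + 1) * L = (s + j * L) + L := by ring
    rw [e3, List.take_add, List.count_append, e1] at e2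
    have e4 : (j + 1) * B = j * B + B := by ring
    omega
  refine hfree ((w.drop s).take (k * L)) ?_ ⟨ws, by simp [hws], by rw [hws]; exact hflat k, ?_, ?_⟩
  · exact (List.take_prefix _ _).isInfix.trans (List.drop_suffix _ _).isInfix
  · intro v hv hnil
    have := hlen v hv
    rw [hnil] at this
    simp at this
    omega
  · intro v hv v' hv'
    rw [List.perm_iff_count]
    have a1 := hlen v hv
    have a2 := hlen v' hv'
    have a3 := hcnt v hv
    have a4 := hcnt v' hv'
    have a5 := count_false_add_true v
    have a6 := count_false_add_true v'
    intro c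
    cases c <;> omega

theorem exists_residue : ∀ g d : ZMod 11, d ≠ 0 → ∃ j : Fin 11, g + (j.val : ZMod 11) * d = 5 := by
  decide +kernel

/-- `h` is abelian `10`-power free. -/
theorem abelian_free : IsAbelianPowerFreeMorphism 10 h := by
  intro w hw u hu hpow
  obtain ⟨ws, hlen, rfl, hne, hperm⟩ := hpow
  obtain ⟨p, t, hW⟩ := hu
  set W := app h w with hWdef
  have h0 : 0 < ws.length := by omega
  set L := (ws[0]).length with hL
  set B := (ws[0]).count true with hB
  have hmem0 : ws[0] ∈ ws := List.getElem_mem _
  have hLpos : 0 < L := by
    rw [hL]
    exact List.length_pos_iff.mpr (hne _ hmem0)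
  have hLs : ∀ v ∈ ws, v.length = L := fun v hv => (hperm v hv _ hmem0).length_eq
  have hBs : ∀ v ∈ ws, v.count true = B := fun v hv => (hperm v hv _ hmem0).count_eq _
  -- prefixes at the cut points
  have hcut : ∀ j ≤ 10, W.take (p.length + j * L) = p ++ (ws.take j).flatten := by
    intro j hj
    have hb := (block_count L B ws hLs hBs j (by omega)).1
    have hsplit : ws.flatten = (ws.take j).flatten ++ (ws.drop j).flatten := by
      rw [← List.flatten_append, List.take_append_drop]
    have hW' : W = (p ++ (ws.take j).flatten) ++ ((ws.drop j).flatten ++ t) := by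
      rw [← hW, hsplit]; simp [List.append_assoc]
    rw [hW']
    have : p.length + j * L = (p ++ (ws.take j).flatten).length := by
      rw [List.length_append, hb]
    rw [this, List.take_left']
    rfl
  have hWlen : p.length + 10 * L ≤ W.length := by
    have h1 := hcut 10 le_rfl
    have h2 := (block_count L B ws hLs hBs 10 (by omega)).1
    have h3 := congrArg List.length h1
    rw [List.length_take, List.length_append, h2] at h3
    omega
  have hcount : ∀ j ≤ 10, (W.take (p.length + j * L)).count true = p.count true + j * B := by
    intro j hj
    rw [hcut j hj, List.count_append, (block_count L B ws hLs hBs j (by omega)).2]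
  have hlenj : ∀ j ≤ 10, (W.take (p.length + j * L)).length = p.length + j * L := by
    intro j hj
    rw [hcut j hj, List.length_append, (block_count L B ws hLs hBs j (by omega)).1]
  have hle : ∀ j ≤ 10, p.length + j * L ≤ W.length := by
    intro j hj
    have : j * L ≤ 10 * L := Nat.mul_le_mul_right _ hj
    omega
  have hgam : ∀ j ≤ 10, gam (W.take (p.length + j * L)) =
      ((p.length : ZMod 11) + 6 * (p.count true : ZMod 11)) +
        (j : ZMod 11) * ((L : ZMod 11) + 6 * (B : ZMod 11)) := by
    intro j hj
    rw [gam_eq, hcount j hj, hlenj j hj]
    push_cast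
    ring
  set g0 : ZMod 11 := (p.length : ZMod 11) + 6 * (p.count true : ZMod 11) with hg0
  set d : ZMod 11 := (L : ZMod 11) + 6 * (B : ZMod 11) with hd
  have hd0 : d = 0 := by
    by_contra hne0
    obtain ⟨j, hj⟩ := exists_residue g0 d hne0
    have hj10 : (j : ℕ) ≤ 10 := by omega
    obtain ⟨Q, -, -, h5, -⟩ := anchor w _ (hle j hj10)
    apply h5
    rw [← hWdef, hgam j hj10]
    exact hj
  have hgam0 : ∀ j ≤ 10, gam (W.take (p.length + j * L)) = g0 := by
    intro j hj
    rw [hgam j hj, hd0, mul_zero, add_zero]
  -- block boundaries
  have hQ : ∀ j, ∃ Q, j ≤ 10 → Q <+: w ∧ W.take (p.length + j * L) ++ U g0 = app h Q ++ T g0 := by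
    intro j
    by_cases hj : j ≤ 10
    · obtain ⟨Q, h1, h2, -, -⟩ := anchor w _ (hle j hj)
      rw [← hWdef, hgam0 j hj] at h2
      exact ⟨Q, fun _ => ⟨h1, h2⟩⟩
    · exact ⟨[], fun h' => absurd h' hj⟩
  choose Q hQ using hQ
  have hlenQ : ∀ j ≤ 10, (p.length + j * L) + (U g0).length =
      (5 * (Q j).count false + 9 * (Q j).count true) + (T g0).length := by
    intro j hj
    have := congrArg List.length (hQ j hj).2
    rw [List.length_append, List.length_append, hlenj j hj, length_app] at this
    exact this
  have hcntQ : ∀ j ≤ 10, (p.count true + j * B) + (U g0).count true =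
      ((Q j).count false + 4 * (Q j).count true) + (T g0).count true := by
    intro j hj
    have := congrArg (List.count true) (hQ j hj).2
    rw [List.count_append, List.count_append, hcount j hj, count_app] at this
    exact this
  -- the counts of the `Q j` form arithmetic progressions
  have l0 := hlenQ 0 (by norm_num)
  have l1 := hlenQ 1 (by norm_num)
  have c0 := hcntQ 0 (by norm_num)
  have c1 := hcntQ 1 (by norm_num)
  have hap : ∀ j ≤ 10, ((Q j).count true : ℤ) = (Q 0).count true +
      j * (((Q 1).count true : ℤ) - (Q 0).count true) ∧
      ((Q j).count false : ℤ) = (Q 0).count false +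
      j * (((Q 1).count false : ℤ) - (Q 0).count false) := by
    intro j hj
    have lj := hlenQ j hj
    have cj := hcntQ j hj
    zify at l0 l1 c0 c1 lj cj
    have hY : (11 : ℤ) * (((Q j).count true : ℤ) - (Q 0).count true -
        j * (((Q 1).count true : ℤ) - (Q 0).count true)) = 0 := by
      linear_combination (-5) * ((cj - c0) - (j : ℤ) * (c1 - c0)) +
        ((lj - l0) - (j : ℤ) * (l1 - l0))
    have hY' := (mul_eq_zero.mp hY).resolve_left (by norm_num)
    have hX : ((Q j).count false : ℤ) - (Q 0).count false -
        j * (((Q 1).count false : ℤ) - (Q 0).count false) = 0 := by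
      linear_combination (-1) * ((cj - c0) - (j : ℤ) * (c1 - c0)) - 4 * hY'
    constructor
    · linarith
    · linarith
  have hpre0 := (hQ 0 (by norm_num)).1
  have hpre1 := (hQ 1 (by norm_num)).1
  have hlt : (Q 0).length < (Q 1).length := by
    by_contra hcon
    have h10 : Q 1 <+: Q 0 := List.prefix_of_prefix_length_le hpre1 hpre0 (not_lt.mp hcon)
    have e1 : (Q 1).count true ≤ (Q 0).count true := h10.sublist.count_le _
    have e2 : (Q 1).count false ≤ (Q 0).count false := h10.sublist.count_le _
    omega
  have h01 : Q 0 <+: Q 1 := List.prefix_of_prefix_length_le hpre0 hpre1 hlt.le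
  have et : (Q 0).count true ≤ (Q 1).count true := h01.sublist.count_le _
  have ef : (Q 0).count false ≤ (Q 1).count false := h01.sublist.count_le _
  have s0 := count_false_add_true (Q 0)
  have s1 := count_false_add_true (Q 1)
  obtain ⟨bb, hbb⟩ := Nat.exists_eq_add_of_le et
  obtain ⟨aa, haa⟩ := Nat.exists_eq_add_of_le ef
  have hbj : ∀ j ≤ 10, (Q j).count true = (Q 0).count true + j * bb := by
    intro j hj
    have := (hap j hj).1
    rw [hbb] at this
    zify
    push_cast at this
    linear_combination this
  have haj : ∀ j ≤ 10, (Q j).count false = (Q 0).count false + j * aa := by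
    intro j hj
    have := (hap j hj).2
    rw [haa] at this
    zify
    push_cast at this
    linear_combination this
  have hlj : ∀ j ≤ 10, (Q j).length = (Q 0).length + j * (aa + bb) := by
    intro j hj
    have e1 := count_false_add_true (Q j)
    rw [hbj j hj, haj j hj] at e1
    rw [← e1, ← s0]
    ring
  refine of_index w 10 (Q 0).length (aa + bb) bb ((Q 0).count true) (by omega) ?_ ?_ hw
  · rw [← hlj 10 le_rfl]
    exact (hQ 10 le_rfl).1.length_le
  · intro j hj
    rw [← hlj j hj, ← List.prefix_iff_eq_take.mp (hQ j hj).1, hbj j hj]

/-! ### The iterates contain no `bb` -/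

/-- No two consecutive letters `b`. -/
def NoBB (w : List Bool) : Prop := List.IsChain (fun x y => ¬ (x = true ∧ y = true)) w

theorem noBB_h : ∀ c, NoBB (h c) := by
  intro c
  unfold NoBB
  cases c <;> simp [h]

theorem last_h : ∀ c, ∀ x ∈ (h c).getLast?, x = true := by
  intro c
  cases c <;> simp [h]

theorem head_app (w : List Bool) : ∀ x ∈ (app h w).head?, x = false := by
  cases w with
  | nil => simp [app]
  | cons c w => rw [app_cons]; cases c <;> simp [h]

theorem noBB_app (w : List Bool) : NoBB (app h w) := by
  induction w with
  | nil => simp [app, NoBB]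
  | cons c w ih =>
    unfold NoBB at ih ⊢
    rw [app_cons, List.isChain_append]
    refine ⟨noBB_h c, ih, ?_⟩
    intro x _ y hy
    rw [head_app w y hy]
    simp

theorem iter_zero (m : Bool → List Bool) : iter m 0 = [false] := rfl

theorem iter_succ (m : Bool → List Bool) (n : ℕ) : iter m (n + 1) = app m (iter m n) := by
  unfold iter
  rw [Function.iterate_succ_apply']

theorem noBB_iter (n : ℕ) : NoBB (iter h n) := by
  cases n with
  | zero => simp [iter_zero, NoBB]
  | succ n => rw [iter_succ]; exact noBB_app _

/-! ### Short periods -/

/-- The square of the morphism. -/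
def h2 (c : Bool) : List Bool := app h (h c)

theorem app_app (w : List Bool) : app h (app h w) = app h2 w := by
  induction w with
  | nil => rfl
  | cons c w ih => rw [app_cons, app_append, ih, app_cons, h2]

/-- The words without `bb` of length one, two, three. -/
def cands : List (List Bool) :=
  [[false], [true], [false, false], [false, true], [true, false], [false, false, false],
    [false, false, true], [false, true, false], [true, false, false], [true, false, true]]

theorem check_short : ∀ v ∈ cands, ∀ s < 61, ∀ L < 9, 0 < L →
    (((app h2 v).drop s).take (5 * L)).length = 5 * L →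
    (((app h2 v).drop s).take (5 * L)).take (4 * L) ≠ (((app h2 v).drop s).take (5 * L)).drop L := by
  decide +kernel

theorem cands_mem (c : Bool) (w : List Bool) (hw : NoBB (c :: w)) : c :: w.take 2 ∈ cands := by
  unfold NoBB at hw
  match w with
  | [] => cases c <;> decide
  | [x] =>
    cases c <;> cases x <;> simp_all [cands]
  | x :: y :: r =>
    cases c <;> cases x <;> cases y <;> simp_all [cands]

theorem len_h2 : ∀ c, 29 ≤ (h2 c).length ∧ (h2 c).length ≤ 61 := by decide +kernel

theorem short_free (w : List Bool) : NoBB w → ∀ s L, L < 9 → 0 < L →
    (((app h2 w).drop s).take (5 * L)).length = 5 * L →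
    (((app h2 w).drop s).take (5 * L)).take (4 * L) ≠
      (((app h2 w).drop s).take (5 * L)).drop L := by
  induction w with
  | nil =>
    intro _ s L _ hL hlen
    simp [app] at hlen
    omega
  | cons c w ih =>
    intro hw s L hL9 hL hlen
    rcases Nat.lt_or_ge s (h2 c).length with hs | hs
    · have hcm := cands_mem c w hw
      have hkey : ((app h2 (c :: w)).drop s).take (5 * L) =
          ((app h2 (c :: w.take 2)).drop s).take (5 * L) := by
        have hsplit : w = w.take 2 ++ w.drop 2 := (List.take_append_drop 2 w).symm
        have e1 : app h2 (c :: w) = app h2 (c :: w.take 2) ++ app h2 (w.drop 2) := by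
          conv_lhs => rw [hsplit]
          rw [app_cons, app_cons, app_append, List.append_assoc]
        rcases Nat.lt_or_ge w.length 2 with hw2 | hw2
        · have : w.drop 2 = [] := by
            apply List.drop_eq_nil_of_le
            omega
          rw [e1, this, app_nil, List.append_nil]
        · have hlen2 : s + 5 * L ≤ (app h2 (c :: w.take 2)).length := by
            match w, hw2 with
            | x :: y :: r, _ =>
              have h1 := (len_h2 x).1
              have h2' := (len_h2 y).1
              simp only [List.take_succ_cons, List.take_zero, app_cons, app_nil,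
                List.length_append, List.length_nil]
              omega
          rw [e1, List.drop_append_of_le_length (by omega), List.take_append_of_le_length]
          rw [List.length_drop]
          omega
      rw [hkey] at hlen ⊢
      exact check_short _ hcm s (lt_of_lt_of_le hs (len_h2 c).2) L hL9 hL hlen
    · obtain ⟨s', rfl⟩ := Nat.exists_eq_add_of_le hs
      have e : (app h2 (c :: w)).drop ((h2 c).length + s') = (app h2 w).drop s' := by
        rw [app_cons, List.drop_length_add_append]
      rw [e] at hlen ⊢
      apply ih _ s' L hL9 hL hlen
      unfold NoBB at hw ⊢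
      exact hw.tail

/-! ### Powers -/

/-- The power `x^j`. -/
def pw (x : List Bool) (j : ℕ) : List Bool := (List.replicate j x).flatten

theorem pw_zero (x : List Bool) : pw x 0 = [] := rfl

theorem pw_succ (x : List Bool) (j : ℕ) : pw x (j + 1) = x ++ pw x j := by
  simp [pw, List.replicate_succ]

theorem pw_succ' (x : List Bool) (j : ℕ) : pw x (j + 1) = pw x j ++ x := by
  induction j with
  | zero => simp [pw]
  | succ j ih => rw [pw_succ, ih, ← List.append_assoc, ← pw_succ, ih]

theorem pw_add (x : List Bool) (i j : ℕ) : pw x (i + j) = pw x i ++ pw x j := by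
  induction i with
  | zero => simp [pw]
  | succ i ih => rw [Nat.succ_add, pw_succ, ih, pw_succ, List.append_assoc]

theorem length_pw (x : List Bool) (j : ℕ) : (pw x j).length = j * x.length := by
  induction j with
  | zero => simp [pw]
  | succ j ih => rw [pw_succ, List.length_append, ih]; ring

theorem pw_five (x : List Bool) : x ++ x ++ x ++ x ++ x = pw x 5 := by
  simp [pw, List.replicate_succ, List.append_assoc]

theorem app_pos (c : Bool) (w : List Bool) : app h (c :: w) ≠ [] := by
  intro he
  have h1 := congrArg List.length he
  rw [app_cons, List.length_append, List.length_nil] at h1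
  have h2 := len_h' c
  omega

theorem app_inj : ∀ y y' : List Bool, app h y = app h y' → y = y' := by
  intro y
  induction y with
  | nil =>
    intro y' he
    cases y' with
    | nil => rfl
    | cons c w => exact absurd he.symm (app_pos c w)
  | cons c w ih =>
    intro y' he
    cases y' with
    | nil => exact absurd he (app_pos c w)
    | cons c' w' =>
      rw [app_cons, app_cons] at he
      have hc : c = c' := by
        cases c <;> cases c' <;> simp_all [h]
      subst hc
      rw [List.append_cancel_left_eq] at he
      rw [ih w' he]

theorem boundary (w : List Bool) : ∀ n, n + 9 ≤ (app h w).length →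
    ∃ Q c R, w = Q ++ c :: R ∧ n ≤ (app h Q).length ∧ (app h Q).length < n + 9 := by
  induction w with
  | nil => intro n hn; simp [app] at hn
  | cons c w ih =>
    intro n hn
    rw [app_cons, List.length_append] at hn
    have hc := len_h c
    rcases Nat.eq_zero_or_pos n with h0 | h0
    · subst h0
      exact ⟨[], c, w, rfl, by simp [app], by simp [app]⟩
    · rcases Nat.lt_or_ge (h c).length n with hlt | hge
      · obtain ⟨Q, c', R, h1, h2, h3⟩ := ih (n - (h c).length) (by omega)
        refine ⟨c :: Q, c', R, by rw [h1]; rfl, ?_, ?_⟩
        · rw [app_cons, List.length_append]; omega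
        · rw [app_cons, List.length_append]; omega
      · cases w with
        | nil => simp [app] at hn; omega
        | cons c' w' =>
          refine ⟨[c], c', w', rfl, ?_, ?_⟩
          · rw [app_cons, app_nil, List.append_nil]; exact hge
          · rw [app_cons, app_nil, List.append_nil]; omega

theorem start_residue : ∀ c : Bool, gam ((h c).take 0) = 0 ∧ gam ((h c).take 1) = 1 ∧
    gam ((h c).take 2) = 2 := by decide +kernel

theorem long_residue : ∀ d : ZMod 11, d ≠ 0 →
    (∃ j : Fin 5, (0 : ZMod 11) + (j.val : ZMod 11) * d = 5 ∨
      (0 : ZMod 11) + (j.val : ZMod 11) * d = 8) ∨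
    (∃ j : Fin 5, (1 : ZMod 11) + (j.val : ZMod 11) * d = 5 ∨
      (1 : ZMod 11) + (j.val : ZMod 11) * d = 8) ∨
    ((2 : ZMod 11) + ((1 : ℕ) : ZMod 11) * d = 5 ∨ (2 : ZMod 11) + ((1 : ℕ) : ZMod 11) * d = 8) := by
  decide +kernel

theorem take_pos (α β x W : List Bool) (hW : α ++ pw x 5 ++ β = W) (j t : ℕ)
    (hjt : t + j * x.length ≤ 5 * x.length) :
    gam (W.take (α.length + (t + j * x.length))) =
      gam (W.take (α.length + t)) + (j : ZMod 11) * gam x := by
  induction j with
  | zero => simp
  | succ j ih =>
    have hle : t + j * x.length ≤ 4 * x.length := by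
      have : (j + 1) * x.length = j * x.length + x.length := by ring
      omega
    have ih' := ih (by omega)
    have e1 : α.length + (t + (j + 1) * x.length) =
        α.length + (x.length + (t + j * x.length)) := by ring
    set s := t + j * x.length with hs
    have h5 : pw x 5 = x ++ pw x 4 := pw_succ x 4
    have h5' : pw x 5 = pw x 4 ++ x := pw_succ' x 4
    have hlen4 : s ≤ (pw x 4).length := by rw [length_pw]; exact hle
    have hA : W.take (α.length + (x.length + s)) = α ++ (x ++ (pw x 4).take s) := by
      rw [← hW, h5, List.append_assoc, List.take_length_add_append, List.append_assoc,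
        List.take_length_add_append, List.take_append_of_le_length hlen4]
    have hB : W.take (α.length + s) = α ++ (pw x 4).take s := by
      rw [← hW, h5', List.append_assoc, List.take_length_add_append, List.append_assoc,
        List.take_append_of_le_length hlen4]
    rw [e1, hA, gam_append, gam_append]
    rw [hB, gam_append] at ih'
    push_cast
    linear_combination ih'

/-- The iterates of `h` are `5`-power free. -/
theorem five_free : ∀ L, ∀ n x, x.length = L → x ≠ [] → ¬ (pw x 5 <:+: iter h n) := by
  intro L
  induction L using Nat.strong_induction_on with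
  | _ L ih =>
  intro n x hxL hx hinf
  obtain ⟨α, β, hW⟩ := hinf
  have hLpos : 0 < L := by rw [← hxL]; exact List.length_pos_iff.mpr hx
  have hlen := congrArg List.length hW
  rw [List.length_append, List.length_append, length_pw, hxL] at hlen
  rcases Nat.lt_or_ge L 9 with hL9 | hL9
  · match n, hW, hlen with
    | 0, _, hlen =>
      rw [iter_zero] at hlen
      simp at hlen
      omega
    | 1, hW, hlen =>
      have e1 : iter h 1 = [false, false, false, false, true] := rfl
      rw [e1] at hlen hW
      simp at hlen
      have hα : α = [] := List.length_eq_zero_iff.mp (by omega)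
      have hβ : β = [] := List.length_eq_zero_iff.mp (by omega)
      have hx1 : x.length = 1 := by omega
      obtain ⟨c, rfl⟩ := List.length_eq_one_iff.mp hx1
      subst hα; subst hβ
      cases c <;> simp [pw, List.replicate_succ] at hW
    | m + 2, hW, hlen =>
      rw [iter_succ, iter_succ, app_app] at hW
      have hz : ((app h2 (iter h m)).drop α.length).take (5 * L) = pw x 5 := by
        rw [← hW, List.append_assoc, List.drop_left]
        have : 5 * L = (pw x 5).length := by rw [length_pw, hxL]
        rw [this, List.take_left]
      have hs := short_free (iter h m) (noBB_iter m) α.length L hL9 hLpos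
        (by rw [hz, length_pw, hxL])
      rw [hz] at hs
      apply hs
      have a1 : (pw x 5).take (4 * L) = pw x 4 := by
        rw [pw_succ' x 4]
        have : 4 * L = (pw x 4).length := by rw [length_pw, hxL]
        rw [this, List.take_left]
      have a2 : (pw x 5).drop L = pw x 4 := by
        rw [pw_succ x 4, ← hxL, List.drop_left]
      rw [a1, a2]
  · match n, hW, hlen with
    | 0, _, hlen =>
      rw [iter_zero] at hlen
      simp at hlen
      omega
    | m + 1, hW, hlen =>
      rw [iter_succ] at hW hlen
      set w := iter h m with hw
      set W := app h w with hWdef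
      have hres : ∀ t, t ≤ 5 * L → gam (W.take (α.length + t)) ≠ 5 ∧
          gam (W.take (α.length + t)) ≠ 8 := by
        intro t ht
        obtain ⟨Q, -, -, h5, h8⟩ := anchor w (α.length + t) (by rw [← hWdef]; omega)
        exact ⟨h5, h8⟩
      have hper : ∀ j t, t + j * L ≤ 5 * L → gam (W.take (α.length + (t + j * L))) =
          gam (W.take (α.length + t)) + (j : ZMod 11) * gam x := by
        intro j t hjt
        have := take_pos α β x W hW j t (by rw [hxL]; exact hjt)
        rw [hxL] at this
        exact this
      have hd0 : gam x = 0 := by
        by_contra hne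
        obtain ⟨Q, c, R, hQ, hb1, hb2⟩ := boundary w α.length (by rw [← hWdef]; omega)
        obtain ⟨t0, ht0⟩ := Nat.exists_eq_add_of_le hb1
        have hWQ : W = app h Q ++ (h c ++ app h R) := by
          rw [hWdef, hQ, app_append, app_cons]
        have hc5 := len_h' c
        have hr : ∀ r, r ≤ 5 → gam (W.take (α.length + (t0 + r))) = gam ((h c).take r) := by
          intro r hr
          rw [← Nat.add_assoc, ← ht0, hWQ, List.take_length_add_append,
            List.take_append_of_le_length (by omega), gam_append, gam_app, zero_add]
        obtain ⟨r0, r1, r2⟩ := start_residue c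
        have g0 := hr 0 (by norm_num)
        have g1 := hr 1 (by norm_num)
        have g2 := hr 2 (by norm_num)
        rw [r0] at g0
        rw [r1] at g1
        rw [r2] at g2
        have ht0L : t0 < 9 := by omega
        have bound : ∀ j : Fin 5, j.val * L ≤ 4 * L := fun j =>
          Nat.mul_le_mul_right _ (by omega)
        rcases long_residue (gam x) hne with ⟨j, hj⟩ | ⟨j, hj⟩ | hj
        · have hb := bound j
          have e := hper j.val (t0 + 0) (by omega)
          rw [g0] at e
          obtain ⟨n5, n8⟩ := hres (t0 + 0 + j.val * L) (by omega)
          rw [e] at n5 n8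
          exact hj.elim n5 n8
        · have hb := bound j
          have e := hper j.val (t0 + 1) (by omega)
          rw [g1] at e
          obtain ⟨n5, n8⟩ := hres (t0 + 1 + j.val * L) (by omega)
          rw [e] at n5 n8
          exact hj.elim n5 n8
        · have e := hper 1 (t0 + 2) (by omega)
          rw [g2] at e
          obtain ⟨n5, n8⟩ := hres (t0 + 2 + 1 * L) (by omega)
          rw [e] at n5 n8
          exact hj.elim n5 n8
      -- now all cut points have the same residue
      set g := gam (W.take (α.length + 0)) with hg
      have hgj : ∀ j ≤ 5, gam (W.take (α.length + j * L)) = g := by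
        intro j hj
        have := hper j 0 (by
          have : j * L ≤ 5 * L := Nat.mul_le_mul_right _ hj
          omega)
        rw [hd0, mul_zero, add_zero, Nat.zero_add] at this
        exact this
      have htake : ∀ j ≤ 5, W.take (α.length + j * L) = α ++ pw x j := by
        intro j hj
        obtain ⟨k, hk⟩ := Nat.exists_eq_add_of_le hj
        have hsplit : pw x 5 = pw x j ++ pw x k := by rw [hk, pw_add]
        have hjl : j * L = (pw x j).length := by rw [length_pw, hxL]
        rw [← hW, List.append_assoc, List.take_length_add_append, hsplit, List.append_assoc, hjl,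
          List.take_left]
      have hle5 : ∀ j ≤ 5, α.length + j * L ≤ W.length := by
        intro j hj
        have : j * L ≤ 5 * L := Nat.mul_le_mul_right _ hj
        omega
      have hQ : ∀ j, ∃ Q, j ≤ 5 → Q <+: w ∧ (α ++ pw x j) ++ U g = app h Q ++ T g := by
        intro j
        by_cases hj : j ≤ 5
        · obtain ⟨Q, h1, h2, -, -⟩ := anchor w _ (hle5 j hj)
          rw [← hWdef, hgj j hj, htake j hj] at h2
          exact ⟨Q, fun _ => ⟨h1, h2⟩⟩
        · exact ⟨[], fun h' => absurd h' hj⟩
      choose Q hQ using hQ
      have hlenQ : ∀ j ≤ 5, α.length + j * L + (U g).length =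
          (app h (Q j)).length + (T g).length := by
        intro j hj
        have := congrArg List.length (hQ j hj).2
        rw [List.length_append, List.length_append, List.length_append, length_pw, hxL] at this
        exact this
      have hy : ∀ j, ∃ y, j < 5 → Q (j + 1) = Q j ++ y := by
        intro j
        by_cases hj : j < 5
        · have p0 := (hQ j hj.le).1
          have p1 := (hQ (j + 1) hj).1
          have l0 := hlenQ j hj.le
          have l1 := hlenQ (j + 1) hj
          have hstep : (j + 1) * L = j * L + L := by ring
          have hpre : Q j <+: Q (j + 1) := by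
            rcases Nat.le_total (Q j).length (Q (j + 1)).length with hl | hl
            · exact List.prefix_of_prefix_length_le p0 p1 hl
            · have hp : Q (j + 1) <+: Q j := List.prefix_of_prefix_length_le p1 p0 hl
              obtain ⟨z, hz⟩ := hp
              rw [← hz, app_append, List.length_append] at l0
              omega
          obtain ⟨y, hy⟩ := hpre
          exact ⟨y, fun _ => hy.symm⟩
        · exact ⟨[], fun h' => absurd h' hj⟩
      choose y hy using hy
      have hyy : ∀ j < 5, y j = y 0 := by
        have hkey : (T g = [] ∧ ∀ j < 5, x ++ U g = U g ++ app h (y j)) ∨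
            (U g = [] ∧ ∀ j < 5, T g ++ x = app h (y j) ++ T g) := by
          rcases T_or_U g with hT | hU
          · left
            refine ⟨hT, ?_⟩
            intro j hj
            have e0 := (hQ j hj.le).2
            have e1 := (hQ (j + 1) hj).2
            rw [hy j hj, app_append] at e1
            rw [hT, List.append_nil] at e0 e1
            rw [← e0, pw_succ'] at e1
            have e2 : (α ++ pw x j) ++ (x ++ U g) = (α ++ pw x j) ++ (U g ++ app h (y j)) := by
              simpa [List.append_assoc] using e1
            exact List.append_cancel_left e2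
          · right
            refine ⟨hU, ?_⟩
            intro j hj
            have e0 := (hQ j hj.le).2
            have e1 := (hQ (j + 1) hj).2
            rw [hy j hj, app_append] at e1
            rw [hU, List.append_nil] at e0 e1
            rw [pw_succ', ← List.append_assoc, e0] at e1
            have e2 : app h (Q j) ++ (T g ++ x) = app h (Q j) ++ (app h (y j) ++ T g) := by
              simpa [List.append_assoc] using e1
            exact List.append_cancel_left e2
        intro j hj
        apply app_inj
        rcases hkey with ⟨-, hk⟩ | ⟨-, hk⟩
        · have a := hk j hj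
          have b := hk 0 (by norm_num)
          rw [a] at b
          exact List.append_cancel_left b
        · have a := hk j hj
          have b := hk 0 (by norm_num)
          rw [a] at b
          exact List.append_cancel_right b
      have hQpow : ∀ j ≤ 5, Q j = Q 0 ++ pw (y 0) j := by
        intro j
        induction j with
        | zero => intro _; simp [pw]
        | succ j ihj =>
          intro hj
          rw [hy j hj, ihj (by omega), hyy j hj, pw_succ', List.append_assoc]
      have hlen0 := hlenQ 0 (by norm_num)
      have hlen1 := hlenQ 1 (by norm_num)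
      rw [hQpow 1 (by norm_num), app_append, List.length_append] at hlen1
      have hpw1 : pw (y 0) 1 = y 0 := by simp [pw]
      rw [hpw1, length_app (y 0)] at hlen1
      have hcy := count_false_add_true (y 0)
      have hylt : (y 0).length < L := by omega
      have hyne : y 0 ≠ [] := by
        intro hnil
        rw [hnil] at hlen1
        simp at hlen1
        omega
      apply ih (y 0).length hylt m (y 0) rfl hyne
      obtain ⟨z, hz⟩ := (hQ 5 le_rfl).1
      rw [hQpow 5 le_rfl] at hz
      exact ⟨Q 0, z, hz⟩

/-! ### The infinite word -/

theorem app_prefix (m : Bool → List Bool) (u v : List Bool) (huv : u <+: v) :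
    app m u <+: app m v := by
  obtain ⟨z, rfl⟩ := huv
  exact ⟨app m z, by rw [app_append]⟩

theorem iter_prefix_succ (n : ℕ) : iter h n <+: iter h (n + 1) := by
  induction n with
  | zero => exact ⟨[false, false, false, true], rfl⟩
  | succ n ih =>
    have := app_prefix h _ _ ih
    rw [← iter_succ, ← iter_succ] at this
    exact this

theorem iter_prefix (n k : ℕ) : iter h n <+: iter h (n + k) := by
  induction k with
  | zero => exact List.prefix_rfl
  | succ k ih => exact ih.trans (iter_prefix_succ (n + k))

theorem lt_length_iter (n : ℕ) : n < (iter h n).length := by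
  induction n with
  | zero => simp [iter_zero]
  | succ n ih =>
    rw [iter_succ, length_app]
    have := count_false_add_true (iter h n)
    omega

/-- The fixed point. -/
def omg (i : ℕ) : Bool := (iter h (i + 1)).getD i false

theorem iter_get (n i : ℕ) (hi : i < (iter h n).length) : (iter h n)[i] = omg i := by
  have hi' : i < (iter h (i + 1)).length := lt_trans (Nat.lt_succ_self i) (lt_length_iter (i + 1))
  have h1 : iter h n <+: iter h (n + (i + 1)) := iter_prefix n (i + 1)
  have h2 : iter h (i + 1) <+: iter h (n + (i + 1)) := by
    have := iter_prefix (i + 1) n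
    rwa [Nat.add_comm (i + 1) n] at this
  unfold omg
  rw [List.getD_eq_getElem _ _ hi', h1.getElem hi, h2.getElem hi']

theorem isFixedPoint : IsFixedPoint h omg := by
  refine ⟨⟨[false, false, false, true], by simp, rfl⟩, ?_, iter_get⟩
  exact Filter.tendsto_atTop_mono (fun n => (lt_length_iter n).le) Filter.tendsto_id

theorem factor_of_iter (u : List Bool) (hu : IsFactor omg u) : ∃ n, u <:+: iter h n := by
  obtain ⟨i, hi⟩ := hu
  refine ⟨i + u.length, ?_⟩
  have hlen := lt_length_iter (i + u.length)
  have heq : u = ((iter h (i + u.length)).drop i).take u.length := by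
    apply List.ext_getElem
    · rw [List.length_take, List.length_drop]; omega
    · intro t h1 h2
      rw [List.getElem_take, List.getElem_drop, iter_get, hi t h1]
  have hinf : ((iter h (i + u.length)).drop i).take u.length <:+: iter h (i + u.length) :=
    (List.take_prefix _ _).isInfix.trans (List.drop_suffix _ _).isInfix
  rw [← heq] at hinf
  exact hinf

/-- **Answer to Q1: yes.**  There is a morphism `m` on `{a, b}` which is abelian `k`-power free
for some `k ≥ 2` and whose fixed point starting with `a` exists, is `5`-power free and contains
no factor `bb`. -/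
theorem result : ∃ m : Bool → List Bool,
    (∃ k, 2 ≤ k ∧ IsAbelianPowerFreeMorphism k m) ∧
    ∃ ω : ℕ → Bool, IsFixedPoint m ω ∧
      (∀ x : List Bool, x ≠ [] → ¬ IsFactor ω (x ++ x ++ x ++ x ++ x)) ∧
      ¬ IsFactor ω [true, true] := by
  refine ⟨h, ⟨10, by norm_num, abelian_free⟩, omg, isFixedPoint, ?_, ?_⟩
  · intro x hx hfac
    rw [pw_five] at hfac
    obtain ⟨n, hn⟩ := factor_of_iter _ hfac
    exact five_free x.length n x rfl hx hn
  · intro hfac
    obtain ⟨n, hn⟩ := factor_of_iter _ hfac
    have h1 := (noBB_iter n)
    unfold NoBB at h1
    obtain ⟨s, t, hst⟩ := hn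
    rw [← hst, List.isChain_append, List.isChain_append] at h1
    have h2 := h1.1.2.1
    simp at h2

end Pool.Agent.Results.MP_8f8c07_co.Morphism
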